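import Mathlib
import Pool.Agent.H58.Ic3

set_option autoImplicit false

namespace Pool.Agent.Results.MP_710d87_nt.Extend

open Pool.Agent.H58.Ic Matrix

theorem result (k : ℕ) (hk : 1 ≤ k) (hk8 : k ≤ 8) (l : ℝ) (hl : 0 < l) (A : Matrix (Fin 8) (Fin k) ℤ)
    (hA : ∀ i j, ((∑ r, A r i * A r j : ℤ) : ℝ) = if i = j then l else 0) :
    ∃ B : Matrix (Fin 8) (Fin 8) ℤ, (∀ i j, ((∑ r, B r i * B r j : ℤ) : ℝ) = if i = j then l else 0) ∧
      ∀ r (j : Fin k), B r (Fin.castLE hk8 j) = A r j := by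
  have h0 := hA ⟨0, hk⟩ ⟨0, hk⟩
  rw [if_pos rfl] at h0
  have h1 : 0 < ∑ r, A r ⟨0, hk⟩ * A r ⟨0, hk⟩ := by exact_mod_cast h0 ▸ hl
  obtain ⟨m, hm⟩ := Int.eq_ofNat_of_zero_le h1.le
  have hml : l = ((m : ℤ) : ℝ) := by rw [← h0, hm]
  obtain ⟨v, h2, h3⟩ := full m (by omega) k hk (fun i r => if h : (i : ℕ) < k then A r ⟨i, h⟩ else 0)
    (fun i j hi hj => by
      have := hA ⟨i, hi⟩ ⟨j, hj⟩
      simp only [dotProduct, dif_pos hi, dif_pos hj, Fin.ext_iff] at this ⊢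
      rw [hml] at this
      exact_mod_cast this) 8 hk8 le_rfl
  refine ⟨Matrix.of fun r i => v i r, fun i j => ?_, fun r j => ?_⟩
  · rw [hml]; exact_mod_cast h2 i j i.2 j.2
  · simp [h3 (Fin.castLE hk8 j) j.2]

end Pool.Agent.Results.MP_710d87_nt.Extend
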